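import Pool.Agent.V8H32.CV.Defs
import Pool.Agent.V8H25.CF.Prod

/-!
# Induced divisors
-/

set_option autoImplicit false

namespace Pool.Agent.V8H25.CV

open Pool.Agent.V8H32.CV Pool.Agent.V8H32.CU Pool.Agent.V8H32.CF Pool.Agent.V8H25.CF

lemma mem_rt {f : ℕ} (hf : 0 < f) {z y : ℂ} : y ∈ rt f z ↔ y ^ f = z := by
  classical
  unfold rt
  rw [Multiset.mem_toFinset, Polynomial.mem_nthRoots hf]

lemma ind_apply {f : ℕ} (hf : 0 < f) (c : ℂ →₀ ℤ) (y : ℂ) : ind f c y = c (y ^ f) := by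
  classical
  unfold ind Finsupp.sum
  rw [Finsupp.finsetSum_apply]
  have h1 : ∀ z ∈ c.support, (∑ x ∈ rt f z, Finsupp.single x (c z)) y =
      if y ^ f = z then c z else 0 := by
    intro z _
    rw [Finsupp.finsetSum_apply]
    simp_rw [Finsupp.single_apply]
    rw [Finset.sum_ite_eq']
    simp only [mem_rt hf]
  rw [Finset.sum_congr rfl h1, Finset.sum_ite_eq]
  split_ifs with h2
  · rfl
  · rw [Finsupp.notMem_support_iff.1 h2]

lemma ind_support {f : ℕ} (hf : 0 < f) (c : ℂ →₀ ℤ) :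
    (ind f c).support = c.support.biUnion (rt f) := by
  classical
  ext y
  rw [Finsupp.mem_support_iff, ind_apply hf, Finset.mem_biUnion]
  constructor
  · intro h
    exact ⟨y ^ f, Finsupp.mem_support_iff.2 h, (mem_rt hf).2 rfl⟩
  · rintro ⟨z, hz, hy⟩
    rw [(mem_rt hf).1 hy]
    exact Finsupp.mem_support_iff.1 hz

lemma rt_disj {f : ℕ} (hf : 0 < f) (c : ℂ →₀ ℤ) :
    Set.PairwiseDisjoint (c.support : Set ℂ) (rt f) := by
  intro z _ z' _ hne
  refine Finset.disjoint_left.2 fun y hy hy' => hne ?_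
  rw [← (mem_rt hf).1 hy, ← (mem_rt hf).1 hy']

lemma ind_sum {N : Type*} [AddCommMonoid N] {f : ℕ} (hf : 0 < f) (c : ℂ →₀ ℤ) (h : ℂ → ℤ → N) :
    (ind f c).sum h = c.sum fun z m => ∑ y ∈ rt f z, h y m := by
  classical
  unfold Finsupp.sum
  rw [ind_support hf, Finset.sum_biUnion (rt_disj hf c)]
  refine Finset.sum_congr rfl fun z _ => Finset.sum_congr rfl fun y hy => ?_
  rw [ind_apply hf, (mem_rt hf).1 hy]

lemma ind_prod {N : Type*} [CommMonoid N] {f : ℕ} (hf : 0 < f) (c : ℂ →₀ ℤ) (h : ℂ → ℤ → N) :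
    (ind f c).prod h = c.prod fun z m => ∏ y ∈ rt f z, h y m := by
  classical
  unfold Finsupp.prod
  rw [ind_support hf, Finset.prod_biUnion (rt_disj hf c)]
  refine Finset.prod_congr rfl fun z _ => Finset.prod_congr rfl fun y hy => ?_
  rw [ind_apply hf, (mem_rt hf).1 hy]

lemma card_rt_le (f : ℕ) (z : ℂ) : (rt f z).card ≤ f := by
  classical
  unfold rt
  exact (Multiset.toFinset_card_le _).trans (Polynomial.card_nthRoots f z)

lemma card_rt {f : ℕ} (hf : 0 < f) {z : ℂ} (hz : z ≠ 0) : (rt f z).card = f := by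
  classical
  have h1 := Complex.isPrimitiveRoot_exp f hf.ne'
  unfold rt
  rw [Multiset.toFinset_card_of_nodup (h1.nthRoots_nodup hz), h1.card_nthRoots, if_pos]
  obtain ⟨y, hy⟩ := IsAlgClosed.exists_pow_nat_eq z hf
  exact ⟨y, hy⟩

lemma sum_rt_pow {f : ℕ} (hf : 0 < f) {z : ℂ} (hz : z ≠ 0) (e : ℕ) :
    ∑ y ∈ rt f z, y ^ e = if f ∣ e then (f : ℂ) * z ^ (e / f) else 0 := by
  classical
  split_ifs with h
  · obtain ⟨k, rfl⟩ := h
    rw [Nat.mul_div_cancel_left k hf]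
    have h1 : ∀ y ∈ rt f z, y ^ (f * k) = z ^ k := fun y hy => by
      rw [pow_mul, (mem_rt hf).1 hy]
    rw [Finset.sum_congr rfl h1, Finset.sum_const, card_rt hf hz, nsmul_eq_mul]
  · have hp := Complex.isPrimitiveRoot_exp f hf.ne'
    set ζ := Complex.exp (2 * Real.pi * Complex.I / f) with hζ
    have hζ0 : ζ ≠ 0 := Complex.exp_ne_zero _
    have h1 : ∑ y ∈ rt f z, y ^ e = ζ ^ e * ∑ y ∈ rt f z, y ^ e := by
      rw [Finset.mul_sum]
      refine Finset.sum_bij (fun y _ => ζ⁻¹ * y) (fun y hy => ?_) (fun y _ y' _ h => ?_)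
        (fun y hy => ⟨ζ * y, ?_, ?_⟩) (fun y _ => ?_)
      · rw [mem_rt hf, mul_pow, inv_pow, hp.pow_eq_one, inv_one, one_mul]
        exact (mem_rt hf).1 hy
      · exact mul_left_cancel₀ (inv_ne_zero hζ0) h
      · rw [mem_rt hf, mul_pow, hp.pow_eq_one, one_mul]
        exact (mem_rt hf).1 hy
      · field_simp
      · rw [mul_pow, inv_pow]
        have := pow_ne_zero e hζ0
        field_simp
    have h2 : ζ ^ e ≠ 1 := fun h3 => h ((hp.pow_eq_one_iff_dvd e).1 h3)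
    have h3 : (ζ ^ e - 1) * ∑ y ∈ rt f z, y ^ e = 0 := by
      rw [sub_mul, one_mul, ← h1, sub_self]
    exact (mul_eq_zero.1 h3).resolve_left (sub_ne_zero.2 h2)

/-- (C1) -/
theorem ind_powerSum {f : ℕ} (hf : 0 < f) {c : ℂ →₀ ℤ} (hz : ∀ z ∈ c.support, z ≠ 0) (e : ℕ) :
    (ind f c).sum (fun z m => (m : ℂ) * z ^ e) =
      if f ∣ e then (f : ℂ) * c.sum (fun z m => (m : ℂ) * z ^ (e / f)) else 0 := by
  rw [ind_sum hf]
  have h1 : (c.sum fun z m => ∑ y ∈ rt f z, (m : ℂ) * y ^ e) =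
      c.sum fun z m => (m : ℂ) * if f ∣ e then (f : ℂ) * z ^ (e / f) else 0 := by
    refine Finsupp.sum_congr fun z hz' => ?_
    rw [← Finset.mul_sum, sum_rt_pow hf (hz z hz')]
  rw [h1]
  split_ifs with h
  · unfold Finsupp.sum
    rw [Finset.mul_sum]
    exact Finset.sum_congr rfl fun z _ => by ring
  · simp

lemma rpow_pow_half (Q f w : ℕ) :
    ((Q ^ f : ℕ) : ℝ) ^ ((w : ℝ) / 2) = ((Q : ℝ) ^ ((w : ℝ) / 2)) ^ f := by
  push_cast
  rw [← Real.rpow_natCast (Q : ℝ) f, ← Real.rpow_mul (by positivity), mul_comm,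
    Real.rpow_mul (by positivity), Real.rpow_natCast]

lemma norm_iff {Q f w : ℕ} (hf : 0 < f) (y : ℂ) :
    ‖y ^ f‖ = ((Q ^ f : ℕ) : ℝ) ^ ((w : ℝ) / 2) ↔ ‖y‖ = (Q : ℝ) ^ ((w : ℝ) / 2) := by
  rw [rpow_pow_half, norm_pow]
  constructor
  · intro h
    exact (pow_left_inj₀ (norm_nonneg _) (by positivity) hf.ne').1 h
  · intro h
    rw [h]

/-- (C2) -/
theorem wpart_ind {f : ℕ} (hf : 0 < f) (Q w : ℕ) (c : ℂ →₀ ℤ) :
    wpart (Q : ℝ) w (ind f c) = ind f (wpart (((Q ^ f : ℕ)) : ℝ) w c) := by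
  classical
  ext y
  rw [ind_apply hf]
  unfold wpart
  rw [Finsupp.filter_apply, Finsupp.filter_apply, ind_apply hf]
  by_cases h : ‖y‖ = (Q : ℝ) ^ ((w : ℝ) / 2)
  · rw [if_pos h, if_pos ((norm_iff hf y).2 h)]
  · rw [if_neg h, if_neg (fun h' => h ((norm_iff hf y).1 h'))]

/-- (C3) -/
theorem hasWeights_ind {f : ℕ} (hf : 0 < f) {Q : ℕ} {c : ℂ →₀ ℤ} (h : HasWeights (Q ^ f) c) :
    HasWeights Q (ind f c) := by
  intro y hy
  rw [Finsupp.mem_support_iff, ind_apply hf] at hy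
  obtain ⟨w, hw⟩ := h (y ^ f) (Finsupp.mem_support_iff.2 hy)
  exact ⟨w, (norm_iff hf y).1 hw⟩

lemma prod_rt {f : ℕ} (hf : 0 < f) {z : ℂ} (hz : z ≠ 0) (x : ℂ) :
    ∏ y ∈ rt f z, (1 - y * x) = 1 - z * x ^ f := by
  classical
  have hp := Complex.isPrimitiveRoot_exp f hf.ne'
  have hnd := hp.nthRoots_nodup hz
  unfold Polynomial.nthRoots at hnd
  have h1 : ∀ t : ℂ, ∏ y ∈ rt f z, (t - y) = t ^ f - z := by
    intro t
    have hm : (Polynomial.X ^ f - Polynomial.C z : Polynomial ℂ).Monic :=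
      Polynomial.monic_X_pow_sub_C z hf.ne'
    have h2 : (Polynomial.X ^ f - Polynomial.C z : Polynomial ℂ) =
        ((Polynomial.X ^ f - Polynomial.C z : Polynomial ℂ).roots.map
          (fun a => Polynomial.X - Polynomial.C a)).prod :=
      (IsAlgClosed.splits _).eq_prod_roots_of_monic hm
    have h3 := congrArg (Polynomial.eval t) h2
    rw [Polynomial.eval_multiset_prod, Multiset.map_map] at h3
    simp only [Function.comp_def, Polynomial.eval_sub, Polynomial.eval_X, Polynomial.eval_C,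
      Polynomial.eval_pow] at h3
    rw [h3]
    unfold rt Polynomial.nthRoots
    rw [Finset.prod, Multiset.toFinset_val, Multiset.dedup_eq_self.2 hnd]
  by_cases hx : x = 0
  · rw [hx, zero_pow hf.ne', mul_zero, sub_zero]
    simp
  · have h4 := h1 x⁻¹
    have h5 : ∏ y ∈ rt f z, (1 - y * x) = x ^ f * ∏ y ∈ rt f z, (x⁻¹ - y) := by
      have : x ^ f = ∏ _y ∈ rt f z, x := by rw [Finset.prod_const, card_rt hf hz]
      rw [this, ← Finset.prod_mul_distrib]
      refine Finset.prod_congr rfl fun y _ => ?_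
      field_simp
    have h6 : x ^ f * x⁻¹ ^ f = 1 := by
      rw [← mul_pow, mul_inv_cancel₀ hx, one_pow]
    rw [h5, h4, mul_sub, h6]
    ring

/-- (C4) -/
theorem lf_ind {f : ℕ} (hf : 0 < f) {c : ℂ →₀ ℤ} (hz : ∀ z ∈ c.support, z ≠ 0) (x : ℂ) :
    lf (ind f c) x = lf c (x ^ f) := by
  unfold lf
  rw [ind_prod hf]
  refine Finset.prod_congr rfl fun z hz' => ?_
  simp only
  rw [Finset.prod_zpow, prod_rt hf (hz z hz')]

/-- (C5) -/
theorem natAbs_ind {f : ℕ} (hf : 0 < f) (c : ℂ →₀ ℤ) :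
    (ind f c).sum (fun _ m => m.natAbs) ≤ f * c.sum (fun _ m => m.natAbs) := by
  rw [ind_sum hf]
  unfold Finsupp.sum
  rw [Finset.mul_sum]
  refine Finset.sum_le_sum fun z _ => ?_
  simp only
  rw [Finset.sum_const, smul_eq_mul]
  exact Nat.mul_le_mul_right _ (card_rt_le f z)

/-- (C6) -/
theorem lf_sum {ι : Type*} (F : Finset ι) (f : ι → ℂ →₀ ℤ) (x : ℂ)
    (h : ∀ i ∈ F, ∀ z ∈ (f i).support, 1 - z * x ≠ 0) :
    lf (∑ i ∈ F, f i) x = ∏ i ∈ F, lf (f i) x ∧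
      ∀ z ∈ (∑ i ∈ F, f i).support, 1 - z * x ≠ 0 := by
  classical
  induction F using Finset.induction_on with
  | empty => exact ⟨by simp [lf_zero], fun z hz => by simp at hz⟩
  | insert a F ha ih =>
    obtain ⟨ih1, ih2⟩ := ih fun i hi => h i (Finset.mem_insert_of_mem hi)
    rw [Finset.sum_insert ha, Finset.prod_insert ha]
    refine ⟨?_, fun z hz => ?_⟩
    · rw [lf_add _ _ _ (h a (Finset.mem_insert_self _ _)) ih2, ih1]
    · rcases Finset.mem_union.1 (Finsupp.support_add hz) with hz | hz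
      · exact h a (Finset.mem_insert_self _ _) z hz
      · exact ih2 z hz

end Pool.Agent.V8H25.CV
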